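import Mathlib

/-! Bodies that are tiled by simplices with a common vertex: volumes and centroids. -/

set_option autoImplicit false

namespace Pool.Agent.Lib.MP_e508a7_gt.Fs

open MeasureTheory Set Function

/-- Euclidean space. -/
abbrev E (n : ℕ) := EuclideanSpace ℝ (Fin n)

variable {n : ℕ}

/-- The standard simplex. -/
def Dx (n : ℕ) : Set (E n) := {x | (∀ l, 0 ≤ x l) ∧ ∑ l, x l ≤ 1}

/-- The cube with a vertex at the origin and the same centroid as the standard simplex. -/
def Qx (n : ℕ) : Set (E n) := {x | ∀ l, 0 ≤ x l ∧ x l ≤ 2 / (n + 1)}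

/-- The opposite vertex of the cube. -/
noncomputable def top (n : ℕ) : E n := WithLp.toLp 2 fun _ => 2 / (n + 1)

/-- The simplex cut with its reflection in the centroid. -/
def Rx (n : ℕ) : Set (E n) := {x | x ∈ Dx n ∧ top n - x ∈ Dx n}

lemma top_apply (l : Fin n) : top n l = 2 / (n + 1) := rfl

lemma cpt {A : Set (E n)} (hA : IsClosed A) (h : ∀ x ∈ A, ∀ l, 0 ≤ x l ∧ x l ≤ 2) :
    IsCompact A :=
  ((isCompact_Icc (a := (0 : Fin n → ℝ)) (b := fun _ => 2)).image
    (PiLp.continuous_toLp 2 _)).of_isClosed_subset hA fun x hx =>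
      ⟨x.ofLp, ⟨fun l => (h x hx l).1, fun l => (h x hx l).2⟩, rfl⟩

lemma cpt_D : IsCompact (Dx n) := by
  refine cpt ?_ fun x hx l => ⟨hx.1 l, ?_⟩
  · refine IsClosed.and ?_ (isClosed_le (by fun_prop) continuous_const)
    rw [ofPred_forall]
    exact isClosed_iInter fun l => isClosed_le continuous_const (by fun_prop)
  · linarith [Finset.single_le_sum (f := fun l => x l) (fun m _ => hx.1 m) (Finset.mem_univ l), hx.2]

lemma cpt_Q : IsCompact (Qx n) := by
  refine cpt ?_ fun x hx l => ⟨(hx l).1, (hx l).2.trans (div_le_self (by norm_num)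
    (le_add_of_nonneg_left (Nat.cast_nonneg n)))⟩
  rw [Qx, ofPred_forall]
  exact isClosed_iInter fun l => IsClosed.and (isClosed_le continuous_const (by fun_prop))
    (isClosed_le (by fun_prop) continuous_const)

lemma pos_QD : 0 < volume (Qx n ∩ Dx n) := by
  have h1 : IsOpen {x : E n | ∀ l, 0 < x l ∧ x l < 1 / (n + 1)} := by
    rw [ofPred_forall]
    exact isOpen_iInter_of_finite fun l => IsOpen.and (isOpen_lt continuous_const (by fun_prop))
      (isOpen_lt (by fun_prop) continuous_const)
  have h2 : (0 : ℝ) < n + 1 := by positivity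
  refine (h1.measure_pos volume ⟨WithLp.toLp 2 fun _ => 1 / (n + 1) / 2, fun l =>
    ⟨by positivity, half_lt_self (by positivity)⟩⟩).trans_le (measure_mono fun x hx => ⟨fun l =>
      ⟨(hx l).1.le, (hx l).2.le.trans (by gcongr; norm_num)⟩, fun l => (hx l).1.le, ?_⟩)
  refine (Finset.sum_le_sum fun l _ => (hx l).2.le).trans ?_
  rw [Finset.sum_const, Finset.card_univ, Fintype.card_fin, nsmul_eq_mul, mul_one_div,
    div_le_one h2]
  linarith

lemma der (z : E n) (L : E n →L[ℝ] E n) (A : Set (E n)) (x : E n) :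
    HasFDerivWithinAt (fun x => z + L x) L A x :=
  (L.hasFDerivAt.const_add z).hasFDerivWithinAt

lemma vol_img (z : E n) {L : E n →L[ℝ] E n} (hL : Injective L) {A : Set (E n)}
    (hA : MeasurableSet A) :
    volume ((fun x => z + L x) '' A) = ENNReal.ofReal |L.det| * volume A := by
  rw [← lintegral_abs_det_fderiv_eq_addHaar_image volume hA (fun x _ => der z L A x)
    fun x _ y _ h => hL (add_left_cancel h), setLIntegral_const]

lemma int_img (z : E n) {L : E n →L[ℝ] E n} (hL : Injective L) {A : Set (E n)}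
    (hA : MeasurableSet A) {F : Type} [NormedAddCommGroup F] [NormedSpace ℝ F] (g : E n → F) :
    ∫ y in (fun x => z + L x) '' A, g y = |L.det| • ∫ x in A, g (z + L x) := by
  rw [integral_image_eq_integral_abs_det_fderiv_smul volume hA (fun x _ => der z L A x)
    (fun x _ y _ h => hL (add_left_cancel h)), integral_smul]

lemma int_aff (z : E n) (L : E n →L[ℝ] E n) {A : Set (E n)} (hA : IsCompact A) :
    ∫ x in A, (z + L x) = volume.real A • z + L (∫ x in A, x) := by
  rw [integral_add (continuous_const.continuousOn.integrableOn_compact hA)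
    (L.continuous.continuousOn.integrableOn_compact hA), setIntegral_const,
    L.integral_comp_comm (continuous_id'.continuousOn.integrableOn_compact hA)]

lemma int_sym {A : Set (E n)} (hA : IsCompact A) {p : E n} (h : ∀ x ∈ A, p - x ∈ A) :
    ∫ x in A, x = (volume.real A / 2) • p := by
  have h1 := (Measure.measurePreserving_sub_left (volume : Measure (E n)) p).setIntegral_preimage_emb
    (Homeomorph.subLeft p).measurableEmbedding (fun x => x) A
  have h2 : (fun t => p - t) ⁻¹' A = A :=
    Set.ext fun x => ⟨fun hx => by simpa using h _ hx, h x⟩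
  rw [h2, integral_sub (continuous_const.continuousOn.integrableOn_compact hA)
    (continuous_id'.continuousOn.integrableOn_compact hA), setIntegral_const, sub_eq_iff_eq_add,
    ← two_smul ℝ] at h1
  rw [div_eq_inv_mul, mul_smul, h1, smul_smul]
  simp

lemma int_D : ∫ x in Dx n, x = (volume.real (Dx n) / 2) • top n := by
  have hi : ∀ l, IntegrableOn (fun x : E n => x l) (Dx n) := fun l =>
    (by fun_prop : Continuous fun x : E n => x l).continuousOn.integrableOn_compact cpt_D
  have h1 : ∀ l, ∫ x in Dx n, x l = volume.real (Dx n) - ∑ m, ∫ x in Dx n, x m := by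
    intro l
    let L : E n →L[ℝ] E n := ContinuousLinearMap.id ℝ _ -
      ContinuousLinearMap.smulRight (EuclideanSpace.proj (𝕜 := ℝ) l +
        ∑ m, EuclideanSpace.proj (𝕜 := ℝ) m) (EuclideanSpace.single l (1 : ℝ))
    have e : ∀ (x : E n) m, (EuclideanSpace.single l (1 : ℝ) + L x) m =
        if m = l then 1 - ∑ k, x k else x m := fun x m => by
      by_cases h : m = l <;> simp [L, h]
      ring
    have es : ∀ x : E n, ∑ m, (EuclideanSpace.single l (1 : ℝ) + L x) m = 1 - x l := fun x => by
      simp only [e]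
      rw [← Finset.add_sum_erase _ _ (Finset.mem_univ l), if_pos rfl,
        ← Finset.add_sum_erase _ (fun k => x k) (Finset.mem_univ l),
        Finset.sum_congr rfl fun m hm => if_neg (Finset.ne_of_mem_erase hm)]
      ring
    have inv : ∀ x : E n, EuclideanSpace.single l (1 : ℝ) +
        L (EuclideanSpace.single l (1 : ℝ) + L x) = x := fun x => by
      ext m
      rw [e, es, e]
      split_ifs with h
      · rw [h]; ring
      · rfl
    have hL : Injective L := fun x y h => by rw [← inv x, h, inv]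
    have mem : ∀ x ∈ Dx n, EuclideanSpace.single l (1 : ℝ) + L x ∈ Dx n := fun x hx => ⟨fun m => by
      rw [e]
      split_ifs
      · linarith [hx.2]
      · exact hx.1 m, by rw [es]; linarith [hx.1 l]⟩
    have im : (fun x => EuclideanSpace.single l (1 : ℝ) + L x) '' Dx n = Dx n :=
      Subset.antisymm (image_subset_iff.2 mem) fun x hx => ⟨_, mem x hx, inv x⟩
    have hv := vol_img (EuclideanSpace.single l 1) hL (cpt_D (n := n)).measurableSet
    rw [im] at hv
    have hd : |L.det| = 1 := by
      have h3 := (ENNReal.mul_left_inj ((pos_QD.trans_le (measure_mono inter_subset_right)).ne')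
        (cpt_D (n := n)).measure_lt_top.ne).1 ((one_mul _).trans hv)
      exact ENNReal.ofReal_eq_one.1 h3.symm
    have h4 := int_img (EuclideanSpace.single l 1) hL (cpt_D (n := n)).measurableSet fun x => x l
    rw [im, hd, one_smul] at h4
    simp only [e, if_true] at h4
    rw [h4, integral_sub (continuous_const.continuousOn.integrableOn_compact cpt_D)
      (integrable_finsetSum _ fun m _ => hi m), integral_finsetSum _ fun m _ => hi m,
      setIntegral_const, smul_eq_mul, mul_one]
  have h2 : ∑ m, ∫ x in Dx n, x m = n * (volume.real (Dx n) - ∑ m, ∫ x in Dx n, x m) := by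
    refine (Finset.sum_congr rfl fun m _ => h1 m).trans ?_
    rw [Finset.sum_const, Finset.card_univ, Fintype.card_fin, nsmul_eq_mul]
  ext l
  have h3 := (EuclideanSpace.proj (𝕜 := ℝ) l).integral_comp_comm
    (continuous_id'.continuousOn.integrableOn_compact (μ := volume) (cpt_D (n := n)))
  simp only [EuclideanSpace.coe_proj] at h3
  rw [← h3, h1, PiLp.smul_apply, top_apply, smul_eq_mul]
  field_simp
  linarith

lemma sym_Q : ∀ x ∈ Qx n, top n - x ∈ Qx n := fun x hx l => by
  rw [PiLp.sub_apply, top_apply]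
  exact ⟨sub_nonneg.2 (hx l).2, sub_le_self _ (hx l).1⟩

lemma model : volume (Qx n) + volume (Rx n) ≤ volume (Qx n ∩ Dx n) + volume (Qx n ∩ Dx n) := by
  have hm := (cpt_Q.inter_right (cpt_D (n := n)).isClosed).measurableSet
  have h1 := (Measure.measurePreserving_sub_left (volume : Measure (E n))
    (top n)).measure_preimage hm.nullMeasurableSet
  nth_rw 1 [← h1]
  rw [← measure_union_add_inter _ hm]
  refine add_le_add (measure_mono fun x hx => ?_) (measure_mono fun x hx => ?_)
  · by_cases h : ∑ l, x l ≤ 1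
    · exact Or.inr ⟨hx, fun l => (hx l).1, h⟩
    · refine Or.inl ⟨sym_Q x hx, fun l => (sym_Q x hx l).1, ?_⟩
      simp only [PiLp.sub_apply, top_apply, Finset.sum_sub_distrib, Finset.sum_const,
        Finset.card_univ, Fintype.card_fin, nsmul_eq_mul]
      have : (n : ℝ) * (2 / (n + 1)) ≤ 2 := by
        rw [← mul_div_assoc, div_le_iff₀ (by positivity)]
        linarith
      linarith
  · have hq : x ∈ Qx n := fun l => ⟨hx.1.1 l, by
      have := hx.2.1 l
      rwa [PiLp.sub_apply, top_apply, sub_nonneg] at this⟩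
    exact ⟨⟨sym_Q x hq, hx.2⟩, hq, hx.1⟩

/-- The union of the images of a set under the tile maps. -/
def U {S : Type} (z : E n) (L : S → E n →L[ℝ] E n) (A : Set (E n)) : Set (E n) :=
  ⋃ s, (fun x => z + L s x) '' A

/-- The images of the orthant meet only along their boundaries. -/
structure Fan {S : Type} (L : S → E n →L[ℝ] E n) : Prop where
  inj : ∀ s, Injective (L s)
  dis : ∀ s s', s ≠ s' → ∃ l, ∀ x x' : E n, (∀ m, 0 ≤ x m) → (∀ m, 0 ≤ x' m) →
    L s x = L s' x' → x l = 0

variable {S : Type} [Fintype S] {z : E n} {L : S → E n →L[ℝ] E n}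

omit [Fintype S] in
lemma Fan.ae (h : Fan L) {A : Set (E n)} (h0 : ∀ x ∈ A, ∀ m, 0 ≤ x m) :
    Pairwise (AEDisjoint volume on fun s => (fun x => z + L s x) '' A) := by
  intro s s' hs
  obtain ⟨l, hl⟩ := h.dis s s' hs
  have h1 : volume ((EuclideanSpace.proj (𝕜 := ℝ) l).ker : Set (E n)) = 0 :=
    Measure.addHaar_submodule _ _ fun e => by
      have : EuclideanSpace.single l (1 : ℝ) ∈ (EuclideanSpace.proj (𝕜 := ℝ) l).ker :=
        e ▸ Submodule.mem_top
      simp at this
  refine measure_mono_null (t := (fun x => z + L s x) '' (EuclideanSpace.proj (𝕜 := ℝ) l).ker)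
    ?_ ?_
  · rintro _ ⟨⟨x, hx, rfl⟩, x', hx', e⟩
    exact ⟨x, hl x x' (h0 x hx) (h0 x' hx') (add_left_cancel e).symm, rfl⟩
  · rw [vol_img z (h.inj s) (Submodule.closed_of_finiteDimensional _).measurableSet, h1, mul_zero]

omit [Fintype S] in
lemma cpt_img (s : S) {A : Set (E n)} (hA : IsCompact A) :
    IsCompact ((fun x => z + L s x) '' A) := hA.image (by fun_prop)

lemma cpt_U {A : Set (E n)} (hA : IsCompact A) : IsCompact (U z L A) :=
  isCompact_iUnion fun s => cpt_img s hA

lemma Fan.vol (h : Fan L) {A : Set (E n)} (hA : IsCompact A) (h0 : ∀ x ∈ A, ∀ m, 0 ≤ x m) :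
    volume (U z L A) = ENNReal.ofReal (∑ s, |(L s).det|) * volume A := by
  rw [U, measure_iUnion₀ (h.ae h0) fun s => (cpt_img s hA).measurableSet.nullMeasurableSet,
    tsum_fintype, ENNReal.ofReal_sum_of_nonneg fun _ _ => abs_nonneg _, Finset.sum_mul]
  exact Finset.sum_congr rfl fun s _ => vol_img z (h.inj s) hA.measurableSet

lemma Fan.int (h : Fan L) {A : Set (E n)} (hA : IsCompact A) (h0 : ∀ x ∈ A, ∀ m, 0 ≤ x m)
    (h1 : ∫ x in A, x = (volume.real A / 2) • top n) :
    ∫ y in U z L A, y = volume.real A • ∑ s, |(L s).det| • (z + (1 / 2 : ℝ) • L s (top n)) := by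
  rw [U, integral_iUnion_ae (fun s => (cpt_img s hA).measurableSet.nullMeasurableSet) (h.ae h0)
    (continuous_id'.continuousOn.integrableOn_compact (cpt_U hA)), tsum_fintype, Finset.smul_sum]
  refine Finset.sum_congr rfl fun s _ => ?_
  rw [int_img z (h.inj s) hA.measurableSet, int_aff z _ hA, h1, map_smul]
  module

lemma Fan.centre (h : Fan L) [Nonempty S] {p : E n} (hp : ∀ y ∈ U z L (Qx n), p - y ∈ U z L (Qx n))
    (h0 : ∫ y in U z L (Dx n), y = 0) : p = 0 := by
  have hD : 0 < volume.real (Dx n) := ENNReal.toReal_pos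
    (pos_QD.trans_le (measure_mono inter_subset_right)).ne' cpt_D.measure_lt_top.ne
  have hQ : 0 < volume (Qx n) := pos_QD.trans_le (measure_mono inter_subset_left)
  have hd : 0 < ∑ s, |(L s).det| := Finset.sum_pos (fun s _ => abs_pos.2
    (LinearEquiv.ofInjectiveEndo (L s : E n →ₗ[ℝ] E n) (h.inj s)).isUnit_det'.ne_zero)
    Finset.univ_nonempty
  rw [h.int cpt_D (fun _ hx => hx.1) int_D, smul_eq_zero_iff_right hD.ne'] at h0
  have h1 := h.int (z := z) cpt_Q (fun _ hx m => (hx m).1) (int_sym cpt_Q sym_Q)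
  rw [h0, smul_zero, int_sym (cpt_U cpt_Q) hp, smul_eq_zero_iff_right] at h1
  · exact h1
  · refine (half_pos (ENNReal.toReal_pos ?_ (cpt_U cpt_Q).measure_lt_top.ne)).ne'
    rw [h.vol cpt_Q fun _ hx m => (hx m).1]
    exact mul_ne_zero (ENNReal.ofReal_pos.2 hd).ne' hQ.ne'

lemma Fan.lower (h : Fan L) (hp : ∀ y ∈ U z L (Qx n), -y ∈ U z L (Qx n)) :
    ENNReal.ofReal (∑ s, |(L s).det|) * volume (Rx n) ≤
      volume {x | x ∈ U z L (Dx n) ∧ -x ∈ U z L (Dx n)} := by
  have hc := cpt_Q.inter_right (cpt_D (n := n)).isClosed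
  have hm := (cpt_U (z := z) (L := L) hc).measurableSet
  have mono : ∀ {A B : Set (E n)}, A ⊆ B → U z L A ⊆ U z L B := fun hAB =>
    iUnion_mono fun s => image_mono hAB
  have hQ := h.vol (z := z) cpt_Q fun _ hx m => (hx m).1
  refine (ENNReal.add_le_add_iff_left ((cpt_U (z := z) (L := L) cpt_Q).measure_lt_top
    (μ := volume)).ne).1 ?_
  nth_rw 1 [hQ]
  rw [← mul_add]
  refine (mul_le_mul_right model _).trans ?_
  rw [mul_add, ← h.vol (z := z) hc fun _ hx => hx.2.1]
  nth_rw 1 [← Measure.measure_neg volume (U z L (Qx n ∩ Dx n))]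
  rw [← measure_union_add_inter _ hm]
  refine add_le_add (measure_mono ?_) (measure_mono fun x hx =>
    ⟨mono inter_subset_right hx.2, mono inter_subset_right hx.1⟩)
  rintro x (hx | hx)
  · simpa using hp _ (mono inter_subset_left hx)
  · exact mono inter_subset_left hx

lemma Fan.upper (h : Fan L) [Unique S] (h0 : ∫ y in U z L (Dx n), y = 0) :
    volume {x | x ∈ U z L (Dx n) ∧ -x ∈ U z L (Dx n)} ≤
      ENNReal.ofReal (∑ s, |(L s).det|) * volume (Rx n) := by
  have e : ∀ A, U z L A = (fun x => z + L default x) '' A := fun A => by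
    exact iSup_unique (f := fun s => (fun x => z + L s x) '' A)
  have h1 : z + z + L default (top n) = 0 := h.centre (fun y hy => by
    rw [e] at hy ⊢
    obtain ⟨x, hx, rfl⟩ := hy
    exact ⟨_, sym_Q x hx, by simp only [map_sub]; abel⟩) h0
  have hR : MeasurableSet (Rx n) := (cpt_D.isClosed.inter
    (cpt_D.isClosed.preimage (by fun_prop : Continuous fun x => top n - x))).measurableSet
  rw [Fintype.sum_unique, ← vol_img z (h.inj default) hR, e]
  refine measure_mono ?_
  rintro _ ⟨⟨a, ha, rfl⟩, b, hb, hab⟩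
  refine ⟨a, ⟨ha, ?_⟩, rfl⟩
  have : b = top n - a := h.inj default (by
    have h2 : z + L default b = -(z + L default a) := hab
    rw [map_sub, eq_neg_of_add_eq_zero_right h1, eq_sub_of_add_eq' h2]
    abel)
  exact this ▸ hb

end Pool.Agent.Lib.MP_e508a7_gt.Fs
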