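import Pool.Agent.Lib.MP_e508a7_gt.Fs.Fan

/-! Convex hulls of simplices with a common point. -/

set_option autoImplicit false

namespace Pool.Agent.Lib.MP_e508a7_gt.Fs

open MeasureTheory Set Function

variable {n j : ℕ} {ι : Type} [Fintype ι] (π : ι → Fin j) (α : ι → ℝ)

/-- Choices of one point of positive weight in every class. -/
def Sel : Type := {s : Fin j → ι // ∀ a, π (s a) = a ∧ 0 < α (s a)}

noncomputable instance : Fintype (Sel π α) := by
  classical
  exact Subtype.fintype _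

variable {π α}

open Classical in
/-- A numbering of the points that are not chosen. -/
noncomputable def num (hc : Fintype.card ι = n + j) (s : Sel π α) :
    Fin n ≃ {i // i ∉ range s.1} :=
  Fintype.equivOfCardEq (by
    have h := Set.card_range_of_injective (f := s.1)
      (LeftInverse.injective (g := π) fun a => (s.2 a).1)
    rw [Fintype.card_subtype_compl, Fintype.card_fin, hc]
    rw [Fintype.card_fin] at h
    exact (Nat.add_sub_cancel ..).symm.trans (congrArg _ (h.symm.trans (Fintype.card_congr' rfl))))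

variable (hc : Fintype.card ι = n + j) (u : ι → E n)

/-- The tile maps. -/
noncomputable def tile (s : Sel π α) : E n →L[ℝ] E n :=
  ∑ l, ContinuousLinearMap.smulRight (EuclideanSpace.proj (𝕜 := ℝ) l) (u (num hc s l))

lemma sum_num (s : Sel π α) {M : Type} [AddCommMonoid M] {F : ι → M} (hF : ∀ a, F (s.1 a) = 0) :
    ∑ l, F (num hc s l) = ∑ i, F i := by
  classical
  rw [(num hc s).sum_comp fun i => F i, ← Finset.sum_subtype
    (Finset.univ.filter fun i => i ∉ range s.1) (by simp)]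
  refine Finset.sum_filter_of_ne fun i _ hi => ?_
  rintro ⟨a, rfl⟩
  exact hi (hF a)

lemma tile_eq (s : Sel π α) {X : ι → ℝ} (hX : ∀ a, X (s.1 a) = 0) {x : E n}
    (hx : ∀ l, x l = X (num hc s l)) : tile hc u s x = ∑ i, X i • u i := by
  rw [← sum_num hc s (F := fun i => X i • u i) fun a => by rw [hX, zero_smul]]
  simp [tile, hx]

lemma exists_ext (s : Sel π α) (x : E n) : ∃ X : ι → ℝ, (∀ a, X (s.1 a) = 0) ∧
    (∀ l, x l = X (num hc s l)) ∧ ∀ i, X i = 0 ∨ ∃ l, X i = x l := by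
  classical
  refine ⟨fun i => if h : i ∈ range s.1 then 0 else x ((num hc s).symm ⟨i, h⟩),
    fun a => dif_pos ⟨a, rfl⟩, fun l => ?_, fun i => ?_⟩
  · exact ((dif_neg (num hc s l).2).trans (by simp)).symm
  · by_cases h : i ∈ range s.1
    · exact Or.inl (dif_pos h)
    · exact Or.inr ⟨_, dif_neg h⟩

variable {u} (h0 : ∀ i, 0 ≤ α i) (h1 : ∀ a, ∑ i with π i = a, α i = 1)
  (h2 : ∀ a, ∑ i with π i = a, α i • u i = 0)

include h2 in
lemma shift (X : ι → ℝ) (t : Fin j → ℝ) :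
    ∑ i, (X i - t (π i) * α i) • u i = ∑ i, X i • u i := by
  simp only [sub_smul, Finset.sum_sub_distrib, sub_eq_self]
  rw [← Finset.sum_fiberwise Finset.univ π]
  refine Finset.sum_eq_zero fun a _ => ?_
  rw [← smul_zero (t a), ← h2 a, Finset.smul_sum]
  exact Finset.sum_congr rfl fun i hi => by rw [(Finset.mem_filter.1 hi).2, mul_smul]

omit [Fintype ι] in
lemma kill (s : Sel π α) (X : ι → ℝ) (a : Fin j) :
    X (s.1 a) - X (s.1 (π (s.1 a))) / α (s.1 (π (s.1 a))) * α (s.1 a) = 0 := by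
  rw [(s.2 a).1, div_mul_cancel₀ _ (s.2 a).2.ne', sub_self]

include h0 h1 h2 in
lemma reduce {X : ι → ℝ} (hX : ∀ i, 0 ≤ X i) : ∃ (s : Sel π α) (x : E n),
    (∀ l, 0 ≤ x l ∧ ∃ i, x l ≤ X i) ∧ ∑ l, x l ≤ ∑ i, X i ∧ tile hc u s x = ∑ i, X i • u i := by
  have h3 : ∀ a, ∃ i, (π i = a ∧ 0 < α i) ∧ ∀ i', π i' = a → 0 < α i' → X i / α i ≤ X i' / α i' := by
    intro a
    obtain ⟨i, hi, h⟩ := Finset.exists_min_image (Finset.univ.filter fun i => π i = a ∧ 0 < α i)
      (fun i => X i / α i) (by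
        obtain ⟨i, hi, h⟩ := Finset.exists_ne_zero_of_sum_ne_zero ((h1 a).trans_ne one_ne_zero)
        exact ⟨i, by simpa using ⟨by simpa using hi, (h0 i).lt_of_ne' h⟩⟩)
    exact ⟨i, by simpa using hi, fun i' a1 a2 => h i' (by simpa using ⟨a1, a2⟩)⟩
  choose s hs hm using h3
  let Y : ι → ℝ := fun i => X i - X (s (π i)) / α (s (π i)) * α i
  have y1 : ∀ i, Y i ≤ X i := fun i =>
    sub_le_self _ (mul_nonneg (div_nonneg (hX _) (h0 _)) (h0 _))
  have y0 : ∀ i, 0 ≤ Y i := fun i => by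
    rcases (h0 i).eq_or_lt with h | h
    · simpa [Y, ← h] using hX i
    · exact sub_nonneg.2 ((le_div_iff₀ h).1 (hm _ i rfl h))
  refine ⟨⟨s, hs⟩, WithLp.toLp 2 fun l => Y (num hc ⟨s, hs⟩ l), fun l => ⟨y0 _, _, y1 _⟩, ?_,
    (tile_eq hc u _ (kill ⟨s, hs⟩ X) fun _ => rfl).trans (shift h2 X fun a => X (s a) / α (s a))⟩
  exact (sum_num hc ⟨s, hs⟩ (F := Y) (kill ⟨s, hs⟩ X)).trans_le (Finset.sum_le_sum fun i _ => y1 i)

include h0 h2 in
lemma fan (hs : Submodule.span ℝ (range u) = ⊤) : Fan (tile (π := π) (α := α) hc u) := by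
  have inj : ∀ s : Sel π α, Injective (tile hc u s) := fun s => by
    refine (LinearMap.injective_iff_surjective (f := (tile hc u s : E n →ₗ[ℝ] E n))).2 fun y => ?_
    obtain ⟨X, rfl⟩ := (Submodule.mem_span_range_iff_exists_fun ℝ).1 (hs ▸ Submodule.mem_top (x := y))
    exact ⟨WithLp.toLp 2 fun l => _, (tile_eq hc u s (kill s X) fun _ => rfl).trans
      (shift h2 X fun a => X (s.1 a) / α (s.1 a))⟩
  refine ⟨inj, fun s s' hne => ?_⟩
  obtain ⟨a, ha⟩ := Function.ne_iff.1 fun e => hne (Subtype.ext e)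
  have hn : s'.1 a ∉ range s.1 := by
    rintro ⟨b, hb⟩
    have : b = a := by rw [← (s.2 b).1, hb, (s'.2 a).1]
    exact ha (this ▸ hb)
  refine ⟨(num hc s).symm ⟨_, hn⟩, fun x x' hx hx' e => le_antisymm ?_ (hx _)⟩
  obtain ⟨X, a1, a2, a3⟩ := exists_ext hc s' x'
  have a4 : ∀ i, 0 ≤ X i := fun i => (a3 i).elim (fun h => h.ge) fun ⟨l, h⟩ => h ▸ hx' l
  rw [tile_eq hc u s' a1 a2, ← shift h2 X fun a => X (s.1 a) / α (s.1 a),
    ← tile_eq hc u s (kill s X) (x := WithLp.toLp 2 fun l => _) fun _ => rfl] at e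
  rw [inj s e]
  simp only [Equiv.apply_symm_apply, a1, zero_sub, neg_nonpos]
  exact mul_nonneg (div_nonneg (a4 _) (h0 _)) (h0 _)

include h0 h1 h2 in
lemma sym_U (z : E n) : ∀ y ∈ U z (tile (π := π) (α := α) hc u) (Qx n),
    (z + z + ∑ i, (2 / (n + 1) : ℝ) • u i) - y ∈ U z (tile (π := π) (α := α) hc u) (Qx n) := by
  simp only [U, mem_iUnion]
  rintro _ ⟨s, x, hx, rfl⟩
  obtain ⟨X, a1, a2, a3⟩ := exists_ext hc s x
  have a4 : ∀ i, 0 ≤ X i ∧ X i ≤ 2 / (n + 1) := fun i =>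
    (a3 i).elim (fun h => ⟨h.ge, h.trans_le (by positivity)⟩) fun ⟨l, h⟩ => h ▸ hx l
  obtain ⟨s', x', b1, -, b3⟩ := reduce hc h0 h1 h2 (X := fun i => 2 / (n + 1) - X i)
    fun i => sub_nonneg.2 (a4 i).2
  refine ⟨s', x', fun l => ⟨(b1 l).1, ?_⟩, ?_⟩
  · obtain ⟨i, hi⟩ := (b1 l).2
    exact hi.trans (sub_le_self _ (a4 i).1)
  · simp only [b3, tile_eq hc u s a1 a2, sub_smul, Finset.sum_sub_distrib]
    abel

include h0 h1 h2 in
lemma hull_U {z : E n} (hz : z ∈ convexHull ℝ (range fun i => z + u i)) :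
    convexHull ℝ (range fun i => z + u i) = U z (tile (π := π) (α := α) hc u) (Dx n) := by
  classical
  refine Subset.antisymm (fun y hy => ?_) ?_
  · obtain ⟨X, a1, a2, rfl⟩ : ∃ X : ι → ℝ, (∀ i, 0 ≤ X i) ∧ ∑ i, X i = 1 ∧
        y = z + ∑ i, X i • u i := by
      refine convexHull_min (t := {y | ∃ X : ι → ℝ, (∀ i, 0 ≤ X i) ∧ ∑ i, X i = 1 ∧
        y = z + ∑ i, X i • u i}) ?_ ?_ hy
      · rintro _ ⟨i, rfl⟩
        exact ⟨Pi.single i 1, fun k => by rw [Pi.single_apply]; positivity, by simp,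
          by simp [Pi.single_apply]⟩
      · rintro _ ⟨X, a1, a2, rfl⟩ _ ⟨Y, b1, b2, rfl⟩ a b ha hb hab
        refine ⟨fun i => a * X i + b * Y i, fun i => add_nonneg (mul_nonneg ha (a1 i))
          (mul_nonneg hb (b1 i)), ?_, ?_⟩
        · rw [Finset.sum_add_distrib, ← Finset.mul_sum, ← Finset.mul_sum, a2, b2]
          linarith
        · simp only [add_smul, mul_smul, Finset.sum_add_distrib, ← Finset.smul_sum]
          rw [eq_sub_of_add_eq hab]
          module
    obtain ⟨s, x, b1, b2, b3⟩ := reduce hc h0 h1 h2 a1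
    exact mem_iUnion.2 ⟨s, x, ⟨fun l => (b1 l).1, b2.trans a2.le⟩, congrArg (z + ·) b3⟩
  · simp only [U, iUnion_subset_iff]
    rintro s _ ⟨x, hx, rfl⟩
    obtain ⟨X, a1, a2, a3⟩ := exists_ext hc s x
    have a4 : ∀ i, 0 ≤ X i := fun i => (a3 i).elim (fun h => h.ge) fun ⟨l, h⟩ => h ▸ hx.1 l
    have a5 : ∑ i, X i ≤ 1 := by
      rw [← sum_num hc s a1, ← Finset.sum_congr rfl fun l _ => a2 l]
      exact hx.2
    have h := (convex_convexHull ℝ (range fun i => z + u i)).sum_mem (t := Finset.univ)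
      (w := fun o : Option ι => o.elim (1 - ∑ i, X i) X) (z := fun o => o.elim z fun i => z + u i)
      (by rintro (_ | i) -; exacts [sub_nonneg.2 a5, a4 i]) (by simp)
      (by rintro (_ | i) -; exacts [hz, subset_convexHull _ _ ⟨i, rfl⟩])
    convert h using 1
    simp only [tile_eq hc u s a1 a2, Fintype.sum_option, Option.elim, smul_add,
      Finset.sum_add_distrib, ← Finset.sum_smul]
    module

include h0 h1 in
lemma sel_nonempty : Nonempty (Sel π α) := by
  have h3 : ∀ a, ∃ i, π i = a ∧ 0 < α i := fun a => by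
    obtain ⟨i, hi, h⟩ := Finset.exists_ne_zero_of_sum_ne_zero ((h1 a).trans_ne one_ne_zero)
    exact ⟨i, by simpa using hi, (h0 i).lt_of_ne' h⟩
  choose s hs using h3
  exact ⟨⟨s, hs⟩⟩

lemma weights {v : ι → E n} {z : E n} (hz : ∀ a, z ∈ convexHull ℝ (v '' {i | π i = a})) :
    ∃ α : ι → ℝ, (∀ i, 0 ≤ α i) ∧ (∀ a, ∑ i with π i = a, α i = 1) ∧
      ∀ a, ∑ i with π i = a, α i • (v i - z) = 0 := by
  classical
  have h : ∀ a, ∃ w : ι → ℝ, (∀ i, 0 ≤ w i) ∧ ∑ i with π i = a, w i = 1 ∧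
      z = ∑ i with π i = a, w i • v i := fun a => by
    refine convexHull_min (t := {y | ∃ w : ι → ℝ, (∀ i, 0 ≤ w i) ∧ ∑ i with π i = a, w i = 1 ∧
      y = ∑ i with π i = a, w i • v i}) ?_ ?_ (hz a)
    · rintro _ ⟨i, hi, rfl⟩
      have hi' : π i = a := hi
      exact ⟨Pi.single i 1, fun k => by rw [Pi.single_apply]; positivity,
        by simp [Pi.single_apply, hi'], by simp [Pi.single_apply, hi']⟩
    · rintro _ ⟨X, a1, a2, rfl⟩ _ ⟨Y, b1, b2, rfl⟩ a b ha hb hab
      refine ⟨fun i => a * X i + b * Y i, fun i => add_nonneg (mul_nonneg ha (a1 i))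
        (mul_nonneg hb (b1 i)), ?_, ?_⟩
      · rw [Finset.sum_add_distrib, ← Finset.mul_sum, ← Finset.mul_sum, a2, b2]
        linarith
      · simp only [add_smul, mul_smul, Finset.sum_add_distrib, ← Finset.smul_sum]
  choose w a1 a2 a3 using h
  have e : ∀ a, ∀ i ∈ Finset.univ.filter fun i => π i = a, w (π i) i = w a i := fun a i hi => by
    rw [(Finset.mem_filter.1 hi).2]
  refine ⟨fun i => w (π i) i, fun i => a1 _ i, fun a => (Finset.sum_congr rfl (e a)).trans (a2 a),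
    fun a => ?_⟩
  refine (Finset.sum_congr (g := fun i => w a i • v i - w a i • z) rfl fun i hi => by
    rw [← smul_sub, ← e a i hi]).trans ?_
  rw [Finset.sum_sub_distrib, ← Finset.sum_smul, a2, ← a3, one_smul, sub_self]

lemma simplex (t : Fin (n + 1) → E n) (ht : AffineIndependent ℝ t)
    (hc : ∫ x in convexHull ℝ (range t), x = 0) : ∃ d : ENNReal,
      volume (convexHull ℝ (range t)) = d * volume (Dx n) ∧
      volume {x | x ∈ convexHull ℝ (range t) ∧ -x ∈ convexHull ℝ (range t)} ≤ d * volume (Rx n) := by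
  have k0 : ∀ i : Fin (n + 1), 0 ≤ (Pi.single 0 1 : Fin (n + 1) → ℝ) i := fun i => by
    rw [Pi.single_apply]; positivity
  have k1 : ∀ a : Fin 1, ∑ i : Fin (n + 1) with (0 : Fin 1) = a,
      (Pi.single 0 1 : Fin (n + 1) → ℝ) i = 1 := fun a => by simp [Subsingleton.elim a 0]
  have k2 : ∀ a : Fin 1, ∑ i : Fin (n + 1) with (0 : Fin 1) = a,
      (Pi.single 0 1 : Fin (n + 1) → ℝ) i • (t i - t 0) = 0 := fun a => by
    simp [Subsingleton.elim a 0, Pi.single_apply]
  have k3 := ht.vectorSpan_eq_top_of_card_eq_finrank_add_one (by simp)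
  rw [vectorSpan_range_eq_span_range_vsub_right ℝ t 0] at k3
  have e : (fun i => t 0 + (t i - t 0)) = t := funext fun i => add_sub_cancel _ _
  have F := fan (Fintype.card_fin (n + 1)) k0 k2 k3
  have hU := hull_U (Fintype.card_fin (n + 1)) k0 k1 k2 (z := t 0)
    (subset_convexHull _ _ ⟨0, by simp⟩)
  have := sel_nonempty k0 k1
  have : Subsingleton (Sel (fun _ : Fin (n + 1) => (0 : Fin 1)) (Pi.single 0 1)) :=
    ⟨fun s s' => Subtype.ext (funext fun a => by
      have a1 := (s.2 a).2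
      have a2 := (s'.2 a).2
      rw [Pi.single_apply] at a1 a2
      split_ifs at a1 a2 with b1 b2
      exacts [b1.trans b2.symm, absurd a2 (lt_irrefl _), absurd a1 (lt_irrefl _),
        absurd a1 (lt_irrefl _)])⟩
  have : Unique (Sel (fun _ : Fin (n + 1) => (0 : Fin 1)) (Pi.single 0 1)) :=
    uniqueOfSubsingleton (Classical.arbitrary _)
  rw [e] at hU
  rw [hU] at hc ⊢
  exact ⟨_, F.vol cpt_D fun _ hx => hx.1, F.upper hc⟩

theorem main (t : Fin (n + 1) → E n) (ht : AffineIndependent ℝ t)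
    (ht0 : ∫ x in convexHull ℝ (range t), x = 0) (hc : Fintype.card ι = n + j) (v : ι → E n)
    (π : ι → Fin j) (z : E n) (hz : ∀ a, z ∈ convexHull ℝ (v '' {i | π i = a}))
    (hi : (interior (convexHull ℝ (range v))).Nonempty)
    (hv : ∫ x in convexHull ℝ (range v), x = 0) :
    volume {x | x ∈ convexHull ℝ (range t) ∧ -x ∈ convexHull ℝ (range t)} *
        volume (convexHull ℝ (range v)) ≤
      volume {x | x ∈ convexHull ℝ (range v) ∧ -x ∈ convexHull ℝ (range v)} *
        volume (convexHull ℝ (range t)) := by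
  obtain ⟨d, d1, d2⟩ := simplex t ht ht0
  obtain ⟨α, k0, k1, k2⟩ := weights hz
  obtain ⟨_, i, -⟩ := convexHull_nonempty_iff.1 (hi.mono interior_subset)
  have k3 : Submodule.span ℝ (range fun i => v i - z) = ⊤ := by
    refine Submodule.eq_top_of_nonempty_interior' _ ?_
    obtain ⟨x, hx⟩ := hi
    refine ⟨x - z, mem_interior_iff_mem_nhds.2 (Filter.mem_of_superset
      ((Homeomorph.addRight z).continuous.continuousAt.preimage_mem_nhds
        (t := convexHull ℝ (range v)) (by simpa using mem_interior_iff_mem_nhds.1 hx)) fun y hy => ?_)⟩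
    have := convexHull_min (s := range v) (t := (· - z) ⁻¹' Submodule.span ℝ (range fun i => v i - z))
      (by rintro _ ⟨i, rfl⟩; exact Submodule.subset_span ⟨i, rfl⟩)
      (by simpa [sub_eq_add_neg] using (Submodule.convex _).translate_preimage_left (-z)) hy
    simpa using this
  have e : (fun i => z + (v i - z)) = v := funext fun i => add_sub_cancel _ _
  have F := fan hc k0 k2 k3
  have hU := hull_U hc k0 k1 k2 (z := z)
    (e.symm ▸ convexHull_mono (image_subset_range _ _) (hz (π i)))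
  have := sel_nonempty k0 k1
  rw [e] at hU
  rw [hU] at hv ⊢
  have hs := sym_U hc k0 k1 k2 z
  rw [F.centre hs hv] at hs
  rw [d1, F.vol cpt_D fun _ hx => hx.1]
  refine (mul_le_mul_left d2 _).trans (le_trans (le_of_eq ?_)
    (mul_le_mul_left (F.lower fun y hy => zero_sub y ▸ hs y hy) _))
  ring

end Pool.Agent.Lib.MP_e508a7_gt.Fs
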